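import Pool.Agent.Helper534.HB.Sc.Small

/-! The prism operator and homotopy invariance. -/

namespace Pool.Agent.Helper534.HB.Sc

universe u v w

open Finsupp

section Tuples

variable {T : Type u} {T' : Type v}

/-- faces of tuples -/
def tface (T : Type u) (k : ℕ) (i : Fin (k + 2)) (a : Fin (k + 2) → T) : Fin (k + 1) → T :=
  a ∘ i.succAbove

theorem tface_tface (k : ℕ) (i j : Fin (k + 2)) (a : Fin (k + 3) → T) (h : i ≤ j) :
    tface T k i (tface T (k + 1) j.succ a) = tface T k j (tface T (k + 1) i.castSucc a) := by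
  funext x
  simp only [tface, Function.comp_apply]
  rw [succAbove_comm i j h x]

noncomputable abbrev tbd (T : Type u) (k : ℕ) :
    ((Fin (k + 2) → T) →₀ ℤ) →ₗ[ℤ] ((Fin (k + 1) → T) →₀ ℤ) :=
  bd (S := fun k => Fin (k + 1) → T) (tface T) k

/-- prepend a point to tuples -/
noncomputable def tcone (k : ℕ) (b : T) :
    ((Fin (k + 1) → T) →₀ ℤ) →ₗ[ℤ] ((Fin (k + 2) → T) →₀ ℤ) :=
  Finsupp.lmapDomain ℤ ℤ (fun a => (Fin.cons b a : Fin (k + 2) → T))

theorem tcone_single (k : ℕ) (b : T) (a : Fin (k + 1) → T) (c : ℤ) :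
    tcone k b (single a c) = single (Fin.cons b a : Fin (k + 2) → T) c := by
  simp [tcone]

theorem tbd_single (k : ℕ) (a : Fin (k + 2) → T) : tbd T k (single a 1) =
    ∑ i : Fin (k + 2), ((-1 : ℤ) ^ (i : ℕ)) • single (tface T k i a) (1 : ℤ) :=
  bd_single (S := fun k => Fin (k + 1) → T) (tface T) k a

theorem tbd_tbd (k : ℕ) (z : (Fin (k + 3) → T) →₀ ℤ) : tbd T k (tbd T (k + 1) z) = 0 :=
  bd_bd (S := fun k => Fin (k + 1) → T) (tface T) (tface_tface) k z

theorem tbd_tcone_succ (k : ℕ) (b : T) (z : (Fin (k + 2) → T) →₀ ℤ) :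
    tbd T (k + 1) (tcone (k + 1) b z) = z - tcone k b (tbd T k z) := by
  have : (tbd T (k + 1)).comp (tcone (k + 1) b) =
      LinearMap.id - (tcone k b).comp (tbd T k) := by
    apply Finsupp.lhom_ext'
    intro a
    apply LinearMap.ext_ring
    simp only [LinearMap.comp_apply, lsingle_apply, LinearMap.sub_apply, LinearMap.id_apply]
    rw [tcone_single, tbd_single, tbd_single, Fin.sum_univ_succ, map_sum, sub_eq_add_neg,
      ← Finset.sum_neg_distrib]
    congr 1
    · simp only [Fin.val_zero, pow_zero, one_smul]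
      congr 1
    · refine Finset.sum_congr rfl fun i _ => ?_
      rw [map_smul, tcone_single, ← neg_smul]
      congr 1
      · simp [pow_succ]
      · congr 1
        funext x
        refine Fin.cases ?_ (fun x => ?_) x
        · simp [tface]
        · simp [tface]
  exact LinearMap.congr_fun this z

theorem tbd_tcone_zero (b : T) (a : Fin 1 → T) :
    tbd T 0 (tcone 0 b (single a 1)) = single a 1 - single (fun _ => b) 1 := by
  rw [tcone_single, tbd_single, Fin.sum_univ_two]
  simp only [Fin.val_zero, pow_zero, one_smul, Fin.val_one, pow_one, neg_smul]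
  rw [← sub_eq_add_neg]
  congr 2
  funext x
  have hx : x = 0 := Subsingleton.elim (α := Fin 1) x 0
  subst hx
  simp [tface]

/-- push tuples forward along a map -/
noncomputable def tpush (f : T → T') (k : ℕ) :
    ((Fin (k + 1) → T) →₀ ℤ) →ₗ[ℤ] ((Fin (k + 1) → T') →₀ ℤ) :=
  Finsupp.lmapDomain ℤ ℤ (fun a i => f (a i))

theorem tpush_single (f : T → T') (k : ℕ) (a : Fin (k + 1) → T) (x : ℤ) :
    tpush f k (single a x) = single (fun i => f (a i)) x := by
  simp [tpush]

theorem tpush_tbd (f : T → T') (k : ℕ) (z : (Fin (k + 2) → T) →₀ ℤ) :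
    tpush f k (tbd T k z) = tbd T' k (tpush f (k + 1) z) := by
  have : (tpush f k).comp (tbd T k) = (tbd T' k).comp (tpush f (k + 1)) := by
    apply Finsupp.lhom_ext'
    intro a
    apply LinearMap.ext_ring
    simp only [LinearMap.comp_apply, lsingle_apply]
    rw [tpush_single, tbd_single, tbd_single, map_sum]
    refine Finset.sum_congr rfl fun i _ => ?_
    rw [map_smul, tpush_single]
    rfl
  exact LinearMap.congr_fun this z

theorem tpush_tcone (f : T → T') (k : ℕ) (b : T) (z : (Fin (k + 1) → T) →₀ ℤ) :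
    tpush f (k + 1) (tcone k b z) = tcone k (f b) (tpush f k z) := by
  have : (tpush f (k + 1)).comp (tcone k b) = (tcone k (f b)).comp (tpush f k) := by
    apply Finsupp.lhom_ext'
    intro a
    apply LinearMap.ext_ring
    simp only [LinearMap.comp_apply, lsingle_apply]
    rw [tpush_single, tcone_single, tcone_single, tpush_single]
    congr 1
    funext i
    refine Fin.cases ?_ (fun i => ?_) i
    · simp
    · simp
  exact LinearMap.congr_fun this z

theorem tpush_tpush {T'' : Type w} (f : T → T') (g : T' → T'') (k : ℕ)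
    (z : (Fin (k + 1) → T) →₀ ℤ) : tpush g k (tpush f k z) = tpush (g ∘ f) k z := by
  have : (tpush g k).comp (tpush f k) = tpush (g ∘ f) k := by
    apply Finsupp.lhom_ext'
    intro a
    apply LinearMap.ext_ring
    simp only [LinearMap.comp_apply, lsingle_apply]
    rw [tpush_single, tpush_single, tpush_single]
    rfl
  exact LinearMap.congr_fun this z

/-- the bottom and top copies of a tuple -/
abbrev lo (t : T) : T × Bool := (t, false)
abbrev hi (t : T) : T × Bool := (t, true)

/-- the prism chain of a tuple -/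
noncomputable def PR (T : Type u) : ∀ k, ((Fin (k + 1) → T) →₀ ℤ) →ₗ[ℤ]
    ((Fin (k + 2) → T × Bool) →₀ ℤ)
  | 0 => Finsupp.linearCombination ℤ (fun a => tcone 0 (lo (a 0))
      (tpush hi 0 (single a 1) - tpush lo 0 (single a 1)))
  | (k + 1) => Finsupp.linearCombination ℤ (fun a => tcone (k + 1) (lo (a 0))
      (tpush hi (k + 1) (single a 1) - tpush lo (k + 1) (single a 1) -
        PR T k (tbd T k (single a 1))))

theorem PR_zero (a : Fin 1 → T) : PR T 0 (single a 1) = tcone 0 (lo (a 0))
    (tpush hi 0 (single a 1) - tpush lo 0 (single a 1)) := by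
  rw [PR, linearCombination_single, one_smul]

theorem PR_succ (k : ℕ) (a : Fin (k + 2) → T) : PR T (k + 1) (single a 1) =
    tcone (k + 1) (lo (a 0)) (tpush hi (k + 1) (single a 1) - tpush lo (k + 1) (single a 1) -
        PR T k (tbd T k (single a 1))) := by
  rw [PR, linearCombination_single, one_smul]

theorem tbd_PR_zero (z : (Fin 1 → T) →₀ ℤ) :
    tbd (T × Bool) 0 (PR T 0 z) = tpush hi 0 z - tpush lo 0 z := by
  have : (tbd (T × Bool) 0).comp (PR T 0) = tpush hi 0 - tpush lo 0 := by
    apply Finsupp.lhom_ext'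
    intro a
    apply LinearMap.ext_ring
    simp only [LinearMap.comp_apply, lsingle_apply, LinearMap.sub_apply]
    rw [PR_zero, tpush_single, tpush_single, map_sub, map_sub, tbd_tcone_zero, tbd_tcone_zero]
    abel
  exact LinearMap.congr_fun this z

theorem tbd_PR (k : ℕ) (z : (Fin (k + 2) → T) →₀ ℤ) :
    tbd (T × Bool) (k + 1) (PR T (k + 1) z) + PR T k (tbd T k z) =
      tpush hi (k + 1) z - tpush lo (k + 1) z := by
  induction k with
  | zero =>
    have : (tbd (T × Bool) 1).comp (PR T 1) + (PR T 0).comp (tbd T 0) =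
        tpush hi 1 - tpush lo 1 := by
      apply Finsupp.lhom_ext'
      intro a
      apply LinearMap.ext_ring
      simp only [LinearMap.comp_apply, lsingle_apply, LinearMap.sub_apply, LinearMap.add_apply]
      rw [PR_succ, tbd_tcone_succ, map_sub (tbd (T × Bool) 0), map_sub (tbd (T × Bool) 0),
        tbd_PR_zero, ← tpush_tbd, ← tpush_tbd]
      have e : tpush hi 0 (tbd T 0 (single a 1)) - tpush lo 0 (tbd T 0 (single a 1)) -
          (tpush hi 0 (tbd T 0 (single a 1)) - tpush lo 0 (tbd T 0 (single a 1))) = 0 := by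
        abel
      rw [e, map_zero]
      abel
    exact LinearMap.congr_fun this z
  | succ k ih =>
    have : (tbd (T × Bool) (k + 2)).comp (PR T (k + 2)) + (PR T (k + 1)).comp (tbd T (k + 1)) =
        tpush hi (k + 2) - tpush lo (k + 2) := by
      apply Finsupp.lhom_ext'
      intro a
      apply LinearMap.ext_ring
      simp only [LinearMap.comp_apply, lsingle_apply, LinearMap.sub_apply, LinearMap.add_apply]
      have h := ih (tbd T (k + 1) (single a 1))
      rw [tbd_tbd, map_zero, add_zero] at h
      rw [PR_succ, tbd_tcone_succ, map_sub (tbd (T × Bool) (k + 1)),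
        map_sub (tbd (T × Bool) (k + 1)), h, ← tpush_tbd, ← tpush_tbd]
      have e : tpush hi (k + 1) (tbd T (k + 1) (single a 1)) -
          tpush lo (k + 1) (tbd T (k + 1) (single a 1)) -
          (tpush hi (k + 1) (tbd T (k + 1) (single a 1)) -
            tpush lo (k + 1) (tbd T (k + 1) (single a 1))) = 0 := by
        abel
      rw [e, map_zero]
      abel
    exact LinearMap.congr_fun this z

theorem tpush_PR (f : T → T') (k : ℕ) (z : (Fin (k + 1) → T) →₀ ℤ) :
    tpush (Prod.map f id) (k + 1) (PR T k z) = PR T' k (tpush f k z) := by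
  have hlo : ∀ (k : ℕ) (z : (Fin (k + 1) → T) →₀ ℤ),
      tpush (Prod.map f id) k (tpush lo k z) = tpush lo k (tpush f k z) := by
    intro k z
    rw [tpush_tpush, tpush_tpush]
    rfl
  have hhi : ∀ (k : ℕ) (z : (Fin (k + 1) → T) →₀ ℤ),
      tpush (Prod.map f id) k (tpush hi k z) = tpush hi k (tpush f k z) := by
    intro k z
    rw [tpush_tpush, tpush_tpush]
    rfl
  induction k with
  | zero =>
    have : (tpush (Prod.map f id) 1).comp (PR T 0) = (PR T' 0).comp (tpush f 0) := by
      apply Finsupp.lhom_ext'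
      intro a
      apply LinearMap.ext_ring
      simp only [LinearMap.comp_apply, lsingle_apply]
      rw [PR_zero, tpush_tcone, map_sub, hlo, hhi, tpush_single f 0 a 1, PR_zero]
      rfl
    exact LinearMap.congr_fun this z
  | succ k ih =>
    have : (tpush (Prod.map f id) (k + 2)).comp (PR T (k + 1)) =
        (PR T' (k + 1)).comp (tpush f (k + 1)) := by
      apply Finsupp.lhom_ext'
      intro a
      apply LinearMap.ext_ring
      simp only [LinearMap.comp_apply, lsingle_apply]
      rw [PR_succ, tpush_tcone, map_sub (tpush (Prod.map f id) (k + 1)),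
        map_sub (tpush (Prod.map f id) (k + 1)), hlo, hhi, ih, tpush_tbd,
        tpush_single f (k + 1) a 1, PR_succ]
      rfl
    exact LinearMap.congr_fun this z

end Tuples

section Homotopy

variable {X : Type u} [TopologicalSpace X] {Y : Type v} [TopologicalSpace Y]

/-- affine map of tuples in `Dl n × [0,1]` -/
noncomputable def paff {n m : ℕ} (a : Fin (m + 1) → Dl n × Bool) : C(Dl m, Dl n × unitInterval) :=
  ⟨fun t => (aff (fun i => (a i).1) t,
    ⟨∑ i, t.1 i * (if (a i).2 then 1 else 0), by
      constructor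
      · apply Finset.sum_nonneg
        intro i _
        have := t.2.1 i
        split_ifs <;> simp [this]
      · have h1 : ∑ i, t.1 i * (if (a i).2 then (1 : ℝ) else 0) ≤ ∑ i, t.1 i := by
          apply Finset.sum_le_sum
          intro i _
          have := t.2.1 i
          split_ifs <;> simp [this]
        exact h1.trans t.2.2.le⟩), by
    apply Continuous.prodMk
    · exact (aff _).continuous
    · apply Continuous.subtype_mk
      apply continuous_finsetSum
      intro i _
      exact ((continuous_apply i).comp continuous_subtype_val).mul continuous_const⟩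

theorem paff_fst {n m : ℕ} (a : Fin (m + 1) → Dl n × Bool) (t : Dl m) :
    (paff a t).1 = aff (fun i => (a i).1) t := rfl

theorem paff_snd {n m : ℕ} (a : Fin (m + 1) → Dl n × Bool) (t : Dl m) :
    ((paff a t).2 : ℝ) = ∑ i, t.1 i * (if (a i).2 then 1 else 0) := rfl

theorem paff_ext {n m : ℕ} {x y : Dl n × unitInterval} (h1 : x.1 = y.1)
    (h2 : (x.2 : ℝ) = y.2) : x = y := Prod.ext h1 (Subtype.ext h2)

/-- the linear functional version of precomposition of `paff` with a face -/
theorem paff_face {n k : ℕ} (a : Fin (k + 2) → Dl n × Bool) (i : Fin (k + 2)) :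
    (paff a).comp (aff (fun j => vert (k + 1) (i.succAbove j))) =
      paff (tface (Dl n × Bool) k i a) := by
  apply ContinuousMap.ext
  intro t
  rw [ContinuousMap.comp_apply]
  apply Prod.ext
  · rw [paff_fst, paff_fst]
    have := congrArg (fun f => f t) (aff_comp (fun i => (a i).1)
      (fun j => vert (k + 1) (i.succAbove j)))
    simp only [ContinuousMap.comp_apply] at this
    rw [this]
    congr 2
    funext j
    rw [aff_vert]
    rfl
  · apply Subtype.ext
    rw [paff_snd, paff_snd, aff_coe]
    simp only [Finset.sum_apply, Pi.smul_apply, smul_eq_mul, Finset.sum_mul]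
    rw [Finset.sum_comm]
    refine Finset.sum_congr rfl fun j _ => ?_
    rw [Finset.sum_eq_single (i.succAbove j)]
    · rw [vert_self, mul_one]
      rfl
    · intro l _ hl
      rw [vert_ne _ _ _ hl, mul_zero, zero_mul]
    · simp

/-- push tuples in `Dl n × Bool` forward to singular simplices -/
noncomputable def ppush {n : ℕ} (G : C(Dl n × unitInterval, Y)) (k : ℕ) :
    ((Fin (k + 1) → Dl n × Bool) →₀ ℤ) →ₗ[ℤ] (Sing Y k →₀ ℤ) :=
  Finsupp.lmapDomain ℤ ℤ (fun a => G.comp (paff a))

theorem ppush_single {n : ℕ} (G : C(Dl n × unitInterval, Y)) (k : ℕ)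
    (a : Fin (k + 1) → Dl n × Bool) (x : ℤ) :
    ppush G k (single a x) = single (G.comp (paff a)) x := by
  simp [ppush]

theorem ppush_tbd {n : ℕ} (G : C(Dl n × unitInterval, Y)) (k : ℕ)
    (z : (Fin (k + 2) → Dl n × Bool) →₀ ℤ) :
    ppush G k (tbd (Dl n × Bool) k z) = sbd Y k (ppush G (k + 1) z) := by
  have : (ppush G k).comp (tbd (Dl n × Bool) k) = (sbd Y k).comp (ppush G (k + 1)) := by
    apply Finsupp.lhom_ext'
    intro a
    apply LinearMap.ext_ring
    simp only [LinearMap.comp_apply, lsingle_apply]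
    rw [ppush_single, tbd_single, sbd, bd_single, map_sum]
    refine Finset.sum_congr rfl fun i _ => ?_
    rw [map_smul, ppush_single, sface_eq, ContinuousMap.comp_assoc, paff_face]
  exact LinearMap.congr_fun this z

theorem paff_map {n m k : ℕ} (c : Fin (m + 1) → Dl n) (a : Fin (k + 1) → Dl m × Bool) :
    paff (fun i => Prod.map (aff c) id (a i)) =
      ((aff c).prodMap (ContinuousMap.id unitInterval)).comp (paff a) := by
  apply ContinuousMap.ext
  intro t
  apply Prod.ext
  · rw [paff_fst]
    exact (congrArg (fun f => f t) (aff_comp c (fun i => (a i).1))).symm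
  · rfl

theorem ppush_map {n m : ℕ} (G : C(Dl n × unitInterval, Y)) (c : Fin (m + 1) → Dl n) (k : ℕ)
    (z : (Fin (k + 1) → Dl m × Bool) →₀ ℤ) :
    ppush G k (tpush (Prod.map (aff c) id) k z) =
      ppush (G.comp ((aff c).prodMap (ContinuousMap.id unitInterval))) k z := by
  have : (ppush G k).comp (tpush (Prod.map (aff c) id) k) =
      ppush (G.comp ((aff c).prodMap (ContinuousMap.id unitInterval))) k := by
    apply Finsupp.lhom_ext'
    intro a
    apply LinearMap.ext_ring
    simp only [LinearMap.comp_apply, lsingle_apply]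
    rw [tpush_single, ppush_single, ppush_single, paff_map, ContinuousMap.comp_assoc]
  exact LinearMap.congr_fun this z

/-- the map `Dl n × [0,1] → Y` induced by a simplex of `X` and a map `X × [0,1] → Y` -/
noncomputable def GG (H : C(X × unitInterval, Y)) {n : ℕ} (σ : Sing X n) :
    C(Dl n × unitInterval, Y) := H.comp (σ.prodMap (ContinuousMap.id unitInterval))

/-- the prism operator -/
noncomputable def PD (H : C(X × unitInterval, Y)) (k : ℕ) :
    (Sing X k →₀ ℤ) →ₗ[ℤ] (Sing Y (k + 1) →₀ ℤ) :=
  Finsupp.linearCombination ℤ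
    (fun σ => ppush (GG H σ) (k + 1) (PR (Dl k) k (single (vert k) 1)))

theorem PD_single (H : C(X × unitInterval, Y)) (k : ℕ) (σ : Sing X k) :
    PD H k (single σ 1) = ppush (GG H σ) (k + 1) (PR (Dl k) k (single (vert k) 1)) := by
  rw [PD, linearCombination_single, one_smul]

/-- push forward of singular chains -/
noncomputable def cpush (f : C(X, Y)) (k : ℕ) : (Sing X k →₀ ℤ) →ₗ[ℤ] (Sing Y k →₀ ℤ) :=
  Finsupp.lmapDomain ℤ ℤ (fun σ => f.comp σ)

theorem cpush_single (f : C(X, Y)) (k : ℕ) (σ : Sing X k) (x : ℤ) :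
    cpush f k (single σ x) = single (f.comp σ) x := by
  simp [cpush]

/-- the slice of `H` at time `t` -/
noncomputable def slice (H : C(X × unitInterval, Y)) (t : unitInterval) : C(X, Y) :=
  ⟨fun x => H (x, t), by fun_prop⟩

theorem ppush_lo (H : C(X × unitInterval, Y)) (k : ℕ) (σ : Sing X k) :
    ppush (GG H σ) k (tpush lo k (single (vert k) 1)) = single ((slice H 0).comp σ) 1 := by
  rw [tpush_single, ppush_single]
  congr 1
  apply ContinuousMap.ext
  intro t
  simp only [ContinuousMap.comp_apply, GG, ContinuousMap.prodMap_apply, slice,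
    ContinuousMap.coe_mk, ContinuousMap.id_apply]
  congr 1
  apply Prod.ext
  · have : (paff (fun i => lo (vert k i)) t).1 = t := by
      rw [paff_fst]
      have := congrArg (fun f => f t) (aff_vert_eq k)
      exact this
    exact congrArg σ this
  · apply Subtype.ext
    change (((paff (fun i => lo (vert k i)) t).2 : unitInterval) : ℝ) = 0
    rw [paff_snd]
    simp

theorem ppush_hi (H : C(X × unitInterval, Y)) (k : ℕ) (σ : Sing X k) :
    ppush (GG H σ) k (tpush hi k (single (vert k) 1)) = single ((slice H 1).comp σ) 1 := by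
  rw [tpush_single, ppush_single]
  congr 1
  apply ContinuousMap.ext
  intro t
  simp only [ContinuousMap.comp_apply, GG, ContinuousMap.prodMap_apply, slice,
    ContinuousMap.coe_mk, ContinuousMap.id_apply]
  congr 1
  apply Prod.ext
  · have : (paff (fun i => hi (vert k i)) t).1 = t := by
      rw [paff_fst]
      have := congrArg (fun f => f t) (aff_vert_eq k)
      exact this
    exact congrArg σ this
  · apply Subtype.ext
    change (((paff (fun i => hi (vert k i)) t).2 : unitInterval) : ℝ) = 1
    rw [paff_snd]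
    have := t.2.2
    simpa using this

theorem sbd_PD_zero (H : C(X × unitInterval, Y)) (z : Sing X 0 →₀ ℤ) :
    sbd Y 0 (PD H 0 z) = cpush (slice H 1) 0 z - cpush (slice H 0) 0 z := by
  have : (sbd Y 0).comp (PD H 0) = cpush (slice H 1) 0 - cpush (slice H 0) 0 := by
    apply Finsupp.lhom_ext'
    intro σ
    apply LinearMap.ext_ring
    simp only [LinearMap.comp_apply, lsingle_apply, LinearMap.sub_apply]
    rw [PD_single, ← ppush_tbd, tbd_PR_zero, map_sub, ppush_lo, ppush_hi, cpush_single,
      cpush_single]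
  exact LinearMap.congr_fun this z

theorem sbd_PD (H : C(X × unitInterval, Y)) (k : ℕ) (z : Sing X (k + 1) →₀ ℤ) :
    sbd Y (k + 1) (PD H (k + 1) z) + PD H k (sbd X k z) =
      cpush (slice H 1) (k + 1) z - cpush (slice H 0) (k + 1) z := by
  have : (sbd Y (k + 1)).comp (PD H (k + 1)) + (PD H k).comp (sbd X k) =
      cpush (slice H 1) (k + 1) - cpush (slice H 0) (k + 1) := by
    apply Finsupp.lhom_ext'
    intro σ
    apply LinearMap.ext_ring
    simp only [LinearMap.comp_apply, lsingle_apply, LinearMap.sub_apply, LinearMap.add_apply]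
    rw [cpush_single, cpush_single, PD_single, ← ppush_tbd, ← ppush_lo, ← ppush_hi, ← map_sub,
      ← tbd_PR k (single (vert (k + 1)) 1), map_add]
    congr 1
    rw [tbd_single, sbd, bd_single, map_sum, map_sum, map_sum]
    refine Finset.sum_congr rfl fun i _ => ?_
    rw [map_smul, map_smul, map_smul, PD_single]
    congr 1
    have h1 : (single (tface (Dl (k + 1)) k i (vert (k + 1))) (1 : ℤ)) =
        tpush (aff (fun j => vert (k + 1) (i.succAbove j))) k (single (vert k) 1) := by
      rw [tpush_single]
      congr 1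
      funext j
      rw [aff_vert]
      rfl
    rw [h1, ← tpush_PR, ppush_map]
    congr 1
    rw [GG, GG, sface_eq, ContinuousMap.comp_assoc]
    rfl
  exact LinearMap.congr_fun this z

/-- pull back of cochains -/
def pb (f : C(X, Y)) {n : ℕ} (c : Sing Y n → ℤ) : Sing X n → ℤ := fun σ => c (f.comp σ)

theorem sface_comp (f : C(X, Y)) {n : ℕ} (i : Fin (n + 2)) (σ : Sing X (n + 1)) :
    sface n i (f.comp σ) = f.comp (sface n i σ) := rfl

theorem altd_pb (f : C(X, Y)) {n : ℕ} (c : Sing Y n → ℤ) :
    altd ℤ (sface (X := X)) n (pb f c) = pb f (altd ℤ (sface (X := Y)) n c) := rfl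

theorem pb_sub (f : C(X, Y)) {n : ℕ} (c c' : Sing Y n → ℤ) : pb f (c - c') = pb f c - pb f c' :=
  rfl

/-- The cochain form of the homotopy formula, for cocycles. -/
theorem exists_altd_eq_pb_sub (H : C(X × unitInterval, Y)) {n : ℕ} (c : Sing Y (n + 1) → ℤ)
    (hc : altd ℤ (sface (X := Y)) (n + 1) c = 0) :
    ∃ b : Sing X n → ℤ, pb (slice H 1) c - pb (slice H 0) c = altd ℤ (sface (X := X)) n b := by
  refine ⟨fun σ => evc c (PD H n (single σ 1)), ?_⟩
  funext σ
  rw [altd_eq_ev]
  have h1 : Finsupp.linearCombination ℤ (fun σ => evc c (PD H n (single σ 1))) =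
      (evc c).comp (PD H n) := by
    apply Finsupp.lhom_ext'
    intro σ
    apply LinearMap.ext_ring
    simp only [LinearMap.comp_apply, lsingle_apply, linearCombination_single, one_smul]
  rw [h1, LinearMap.comp_apply]
  have h2 := sbd_PD H n (single σ 1)
  have h3 : evc c (sbd Y (n + 1) (PD H (n + 1) (single σ 1))) = 0 := by
    rw [← ev_altd, hc]
    simp
  have h4 := congrArg (evc c) h2
  rw [map_add, map_sub, cpush_single, cpush_single, evc_single, evc_single] at h4
  change evc c (bd (sface (X := Y)) (n + 1) (PD H (n + 1) (single σ 1))) +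
    evc c (PD H n (bd (sface (X := X)) n (single σ 1))) = _ at h4
  rw [h3, zero_add] at h4
  rw [h4]
  rfl

end Homotopy

end Pool.Agent.Helper534.HB.Sc
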