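import Mathlib

/-! Definitions: singular cohomology, Betti numbers, symmetries, antipodal sets, two-number. -/

namespace Pool.Agent.Helper534.HB.Sc

universe u v w

section Singular

/-- Singular `n`-simplices of a space `X`: continuous maps from the standard `n`-simplex. -/
abbrev Sing (X : Type u) [TopologicalSpace X] (n : ℕ) : Type u :=
  C(stdSimplex ℝ (Fin (n + 1)), X)

/-- The `i`-th face of a singular `(n+1)`-simplex: precomposition with the affine inclusion of the
standard `n`-simplex as the face opposite to the `i`-th vertex. -/
noncomputable def sface {X : Type u} [TopologicalSpace X] (n : ℕ) (i : Fin (n + 2))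
    (σ : Sing X (n + 1)) : Sing X n :=
  σ.comp ⟨stdSimplex.map i.succAbove, stdSimplex.continuous_map _⟩

/-- The alternating coboundary: for a family `S n` of sets of simplices with face maps
`face n i : S (n+1) → S n` (`i = 0, …, n+1`), the map sending `f : S n → k` to
`σ ↦ ∑ i, (-1)^i * f (face n i σ)`. -/
def altd (k : Type u) [CommRing k] {S : ℕ → Type v} (face : ∀ n, Fin (n + 2) → S (n + 1) → S n)
    (n : ℕ) : (S n → k) →ₗ[k] (S (n + 1) → k) where
  toFun f σ := ∑ i : Fin (n + 2), (-1 : k) ^ (i : ℕ) * f (face n i σ)
  map_add' f g := by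
    funext σ
    simp only [Pi.add_apply, mul_add, Finset.sum_add_distrib]
  map_smul' c f := by
    funext σ
    simp only [Pi.smul_apply, smul_eq_mul, RingHom.id_apply, Finset.mul_sum]
    refine Finset.sum_congr rfl fun i _ => ?_
    ring

/-- Singular `n`-cocycles of `X` with coefficients in `k`: functions on the singular simplices
killed by the alternating coboundary. -/
noncomputable def cocycles (k : Type v) [CommRing k] (X : Type u) [TopologicalSpace X] (n : ℕ) :
    Submodule k (Sing X n → k) :=
  LinearMap.ker (altd k (sface (X := X)) n)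

/-- Singular `n`-coboundaries: zero in degree `0`, the range of the coboundary in degree `n+1`. -/
noncomputable def coboundaries (k : Type v) [CommRing k] (X : Type u) [TopologicalSpace X] :
    ∀ n : ℕ, Submodule k (Sing X n → k)
  | 0 => ⊥
  | (n + 1) => LinearMap.range (altd k (sface (X := X)) n)

/-- Singular cohomology `H^n(X; k)`: cocycles modulo coboundaries. -/
def SingularCohomology (k : Type v) [CommRing k] (X : Type u) [TopologicalSpace X] (n : ℕ) :
    Type (max u v) :=
  cocycles k X n ⧸ (coboundaries k X n).submoduleOf (cocycles k X n)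

noncomputable instance (k : Type v) [CommRing k] (X : Type u) [TopologicalSpace X] (n : ℕ) :
    AddCommGroup (SingularCohomology k X n) :=
  Submodule.Quotient.addCommGroup ((coboundaries k X n).submoduleOf (cocycles k X n))

noncomputable instance (k : Type v) [CommRing k] (X : Type u) [TopologicalSpace X] (n : ℕ) :
    Module k (SingularCohomology k X n) :=
  Submodule.Quotient.module ((coboundaries k X n).submoduleOf (cocycles k X n))

/-- The total Betti number `∑ₙ dim H^n(X; k)` with coefficients in the field `k`, as a natural
number or `∞`: the supremum of the partial sums of the dimensions. -/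
noncomputable def totalBetti (k : Type v) [Field k] (X : Type u) [TopologicalSpace X] : ℕ∞ :=
  ⨆ N : ℕ, ∑ n ∈ Finset.range N, Cardinal.toENat (Module.rank k (SingularCohomology k X n))

/-- The Euler characteristic `∑ₙ (-1)^n dim H^n(X; ℚ)`. -/
noncomputable def eulerChar (X : Type u) [TopologicalSpace X] : ℤ :=
  ∑ᶠ n : ℕ, (-1 : ℤ) ^ n * (Module.finrank ℚ (SingularCohomology ℚ X n) : ℤ)

end Singular

section Symmetric

/-- `s` is a symmetry of `M` at `x`: an isometry of `M` with `s ∘ s = id` which has `x` as an
isolated fixed point. -/
def IsSymmetryAt {M : Type u} [MetricSpace M] (x : M) (s : M ≃ᵢ M) : Prop :=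
  (∀ y, s (s y) = y) ∧ s x = x ∧ ∃ ε > 0, ∀ y, dist y x < ε → s y = y → y = x

/-- `M` is symmetric: there is a symmetry at every point. -/
def IsSymmetric (M : Type u) [MetricSpace M] : Prop :=
  ∀ x : M, ∃ s : M ≃ᵢ M, IsSymmetryAt x s

/-- Antipodal subset: `s_x (y) = y` for all `x, y ∈ A`, where `s_x` is the symmetry at `x`. -/
def IsAntipodal {M : Type u} [MetricSpace M] (A : Set M) : Prop :=
  ∀ x ∈ A, ∀ y ∈ A, ∃ s : M ≃ᵢ M, IsSymmetryAt x s ∧ s y = y

/-- The two-number of `M`: the supremum of the cardinalities of its antipodal subsets. -/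
noncomputable def twoNumber (M : Type u) [MetricSpace M] : ℕ∞ :=
  ⨆ A : {A : Set M // IsAntipodal A}, A.1.encard

end Symmetric

end Pool.Agent.Helper534.HB.Sc
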